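import Mathlib
import Pool.Agent.LeX.Main

/-!
For every `0 < δ < 1` there is `c > 0` such that for all large `X` at least `X^(1-δ)` odd numbers
`n` in `(X/2, X]` have no representation `n = p + x(x+1)` with
`1 ≤ x ≤ c log X (log log X)^3 (log log log log X)^2 / (log log log X)^4`.
-/

namespace Pool.Agent.Results.MP_3f6540_nt.LargeLeastX

open Filter

theorem result (δ : ℝ) (hδ : 0 < δ) (hδ1 : δ < 1) : ∃ c : ℝ, 0 < c ∧
    ∀ᶠ X : ℕ in atTop, (X : ℝ) ^ (1 - δ) ≤
      (Set.ncard {n : ℕ | (X < 2 * n ∧ n ≤ X) ∧ Odd n ∧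
        ∀ p x : ℕ, p.Prime → 1 ≤ x → n = p + x * (x + 1) →
          c * Real.log X * Real.log (Real.log X) ^ 3 *
            Real.log (Real.log (Real.log (Real.log X))) ^ 2 /
            Real.log (Real.log (Real.log X)) ^ 4 < x} : ℝ) :=
  Pool.Agent.LeX.least_x_lower δ hδ hδ1

end Pool.Agent.Results.MP_3f6540_nt.LargeLeastX
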