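import Pool.Agent.ThinX.Final

set_option autoImplicit false

/-!
Sums `x (x + 1) + q`, `q` prime, with `x` in a very thin set: positive lower density, robust under
passing to sets of positive lower density and to sets of primes of positive relative density, and
the optimal order.
-/

namespace Pool.Agent.Results.MP_3f6540_nt.ThinSet

open Pool.Agent.ThinX
open Pool.Agent.LevyThin (pi_bounds)

/-- Every set `U` of naturals with at least `δ x` elements up to `x` (all large `x`) has a subset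
`A` of positive integers with at most one element in every dyadic interval such that for all
`δ, θ > 0` there is `c > 0` such that for all large `X` and every set `Q` of at least
`δ X / log X` primes up to `X` at least `c X` of the integers `m ≤ 2 X` are of the form `x (x + 1) + q` with `x ∈ A`, `q ∈ Q`,
`q ≠ 2`, `x ≤ m ^ θ`. For `U` the set of all positive integers and `Q` the set of all primes:
positive lower density. The order of magnitude is optimal: a set `A` for which the numbers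
`x (x + 1) + q`, `x ∈ A`, `q` prime, have positive lower density has at least `c log X` elements up
to `X`. -/
theorem result :
    (∀ U : Set ℕ,
      (∃ δ : ℝ, 0 < δ ∧ ∃ x₀ : ℕ, ∀ x : ℕ, x₀ ≤ x → δ * x ≤ ((U ∩ Set.Iic x).ncard : ℝ)) →
      ∃ A : Set ℕ, A ⊆ U ∧ 0 ∉ A ∧
        (∀ j : ℕ, (A ∩ Set.Ioc (2 ^ j) (2 ^ (j + 1))).Subsingleton) ∧
        ∀ δ θ : ℝ, 0 < δ → 0 < θ → ∃ c : ℝ, 0 < c ∧ ∃ X₀ : ℕ, ∀ X : ℕ, X₀ ≤ X →
          ∀ Q : Finset ℕ, (∀ q ∈ Q, q.Prime ∧ q ≤ X) → δ * X / Real.log X ≤ (Q.card : ℝ) →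
            c * X ≤ (({m : ℕ | m ≤ 2 * X ∧ ∃ x ∈ A, ∃ q ∈ Q, q ≠ 2 ∧ m = x * (x + 1) + q ∧
              (x : ℝ) ≤ (m : ℝ) ^ θ}.ncard : ℕ) : ℝ)) ∧
    (∃ A : Set ℕ, 0 ∉ A ∧
      (∀ j : ℕ, (A ∩ Set.Ioc (2 ^ j) (2 ^ (j + 1))).Subsingleton) ∧
      ∀ θ : ℝ, 0 < θ → ∃ c : ℝ, 0 < c ∧ ∃ X₀ : ℕ, ∀ X : ℕ, X₀ ≤ X →
        c * X ≤ (({m : ℕ | m ≤ X ∧ ∃ x ∈ A, ∃ q : ℕ, q.Prime ∧ q ≠ 2 ∧ m = x * (x + 1) + q ∧
          (x : ℝ) ≤ (m : ℝ) ^ θ}.ncard : ℕ) : ℝ)) ∧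
    (∀ A : Set ℕ,
      (∃ c : ℝ, 0 < c ∧ ∃ X₀ : ℕ, ∀ X : ℕ, X₀ ≤ X →
        c * X ≤ (({m : ℕ | m ≤ X ∧ ∃ x ∈ A, ∃ q : ℕ, q.Prime ∧ m = x * (x + 1) + q}.ncard : ℕ) :
          ℝ)) →
      ∃ c : ℝ, 0 < c ∧ ∃ X₀ : ℕ, ∀ X : ℕ, X₀ ≤ X →
        c * Real.log X ≤ ((A ∩ Set.Iic X).ncard : ℝ)) := by
  have hA : ∀ U : Set ℕ,
      (∃ δ : ℝ, 0 < δ ∧ ∃ x₀ : ℕ, ∀ x : ℕ, x₀ ≤ x → δ * x ≤ ((U ∩ Set.Iic x).ncard : ℝ)) →
      ∃ A : Set ℕ, A ⊆ U ∧ 0 ∉ A ∧
        (∀ j : ℕ, (A ∩ Set.Ioc (2 ^ j) (2 ^ (j + 1))).Subsingleton) ∧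
        ∀ δ θ : ℝ, 0 < δ → 0 < θ → ∃ c : ℝ, 0 < c ∧ ∃ X₀ : ℕ, ∀ X : ℕ, X₀ ≤ X →
          ∀ Q : Finset ℕ, (∀ q ∈ Q, q.Prime ∧ q ≤ X) → δ * X / Real.log X ≤ (Q.card : ℝ) →
            c * X ≤ (({m : ℕ | m ≤ 2 * X ∧ ∃ x ∈ A, ∃ q ∈ Q, q ≠ 2 ∧ m = x * (x + 1) + q ∧
              (x : ℝ) ≤ (m : ℝ) ^ θ}.ncard : ℕ) : ℝ) := by
    intro U hd
    obtain ⟨g, η, hη, γ, hγ, K, hK, s0, hs0, hG⟩ := global_choice U hd
    have hjj : ∀ j j' p : ℕ, p ∈ A j → p ∈ Set.Ioc (2 ^ j') (2 ^ (j' + 1)) → j = j' := by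
      intro j j' p hp hp'
      have h1 := mem_A.mp hp
      have h2 : 2 ^ j < 2 ^ (j' + 1) := lt_of_lt_of_le h1.1 hp'.2
      have h3 : 2 ^ j' < 2 ^ (j + 1) := lt_of_lt_of_le hp'.1 h1.2
      have h4 := (Nat.pow_lt_pow_iff_right (by norm_num : 1 < 2)).mp h2
      have h5 := (Nat.pow_lt_pow_iff_right (by norm_num : 1 < 2)).mp h3
      omega
    refine ⟨{p | ∃ s ≥ s0, ∃ j ∈ I U η s, p = g j}, ?_, ?_, ?_, ?_⟩
    · rintro p ⟨s, hs, j, hj, rfl⟩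
      exact (mem_B.mp ((hG s hs).1 j hj)).2
    · rintro ⟨s, hs, j, hj, h0⟩
      have h1 := (mem_A.mp (mem_B.mp ((hG s hs).1 j hj)).1).1
      rw [← h0] at h1
      exact absurd h1 (Nat.not_lt_zero _)
    · rintro j p ⟨⟨s, hs, j1, hj1, rfl⟩, hp⟩ p' ⟨⟨s', hs', j2, hj2', rfl⟩, hp'⟩
      have e1 := hjj j1 j _ (mem_B.mp ((hG s hs).1 j1 hj1)).1 hp
      have e2 := hjj j2 j _ (mem_B.mp ((hG s' hs').1 j2 hj2')).1 hp'
      rw [e1, e2]
    · intro δ θ hδ hθ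
      exact lower U g η γ K hγ hK s0 hs0 hG δ θ hδ hθ
  have hcnt : ∀ x : ℕ, (({p : ℕ | p.Prime} ∩ Set.Iic x).ncard : ℕ) = Nat.primeCounting x := by
    intro x
    rw [Nat.primeCounting, Nat.primeCounting', Nat.count_eq_card_filter_range,
      ← Set.ncard_coe_finset]
    congr 1
    ext p
    simp only [Set.mem_inter_iff, Set.mem_ofPred_eq, Set.mem_Iic, Finset.coe_filter,
      Finset.mem_range]
    constructor
    · rintro ⟨h1, h2⟩
      exact ⟨by omega, h1⟩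
    · rintro ⟨h1, h2⟩
      exact ⟨h2, by omega⟩
  obtain ⟨n0, hn0⟩ := pi_bounds
  refine ⟨hA, ?_, ?_⟩
  · -- all positive integers
    obtain ⟨P, -, hP0, hPd, hP⟩ := hA Set.univ ⟨1, by norm_num, 0, by
        intro x _
        have h1 : (Set.univ ∩ Set.Iic x) = ((Finset.range (x + 1) : Finset ℕ) : Set ℕ) := by
          ext y
          simp only [Set.mem_inter_iff, Set.mem_univ, true_and, Set.mem_Iic, Finset.coe_range,
            Set.mem_Iio]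
          omega
        rw [h1, Set.ncard_coe_finset, Finset.card_range, one_mul]
        push_cast
        linarith⟩
    refine ⟨P, hP0, hPd, fun θ hθ => ?_⟩
    obtain ⟨c, hc, X0, hX0⟩ := hP (9 / 10) θ (by norm_num) hθ
    refine ⟨c / 3, by positivity, 2 * (max X0 (max n0 2)) + 2, fun X hX => ?_⟩
    have h1 : max X0 (max n0 2) ≤ X / 2 := by omega
    have h2 : X0 ≤ X / 2 := (le_max_left _ _).trans h1
    have h3 : n0 ≤ X / 2 := ((le_max_left _ _).trans (le_max_right _ _)).trans h1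
    have h4 : 2 ≤ X / 2 := ((le_max_right _ _).trans (le_max_right _ _)).trans h1
    have h5 := hX0 (X / 2) h2 ((Finset.range (X / 2 + 1)).filter Nat.Prime) (by
      intro q hq
      rw [Finset.mem_filter, Finset.mem_range] at hq
      exact ⟨hq.2, by omega⟩) (by
      have h6 : ((Finset.range (X / 2 + 1)).filter Nat.Prime).card = Nat.primeCounting (X / 2) := by
        rw [Nat.primeCounting, Nat.primeCounting', Nat.count_eq_card_filter_range]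
      rw [h6, div_le_iff₀ (Real.log_pos (by exact_mod_cast (by omega : 1 < X / 2)))]
      exact (hn0 _ h3).1)
    have h6 : c / 3 * X ≤ c * ((X / 2 : ℕ) : ℝ) := by
      have h7 : X ≤ 3 * (X / 2) := by omega
      have h8 : (X : ℝ) ≤ 3 * ((X / 2 : ℕ) : ℝ) := by exact_mod_cast h7
      have h9 : c / 3 * X ≤ c / 3 * (3 * ((X / 2 : ℕ) : ℝ)) := by gcongr
      linarith
    refine h6.trans (h5.trans ?_)
    have hfin : {m : ℕ | m ≤ X ∧ ∃ x ∈ P, ∃ q : ℕ, q.Prime ∧ q ≠ 2 ∧ m = x * (x + 1) + q ∧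
          (x : ℝ) ≤ (m : ℝ) ^ θ}.Finite := (Set.finite_Iic X).subset fun _ hm => hm.1
    have hle := Set.ncard_le_ncard (s := {m : ℕ | m ≤ 2 * (X / 2) ∧ ∃ x ∈ P,
      ∃ q ∈ (Finset.range (X / 2 + 1)).filter Nat.Prime, q ≠ 2 ∧ m = x * (x + 1) + q ∧
              (x : ℝ) ≤ (m : ℝ) ^ θ}) (t := {m : ℕ | m ≤ X ∧ ∃ x ∈ P, ∃ q : ℕ, q.Prime ∧ q ≠ 2 ∧
          m = x * (x + 1) + q ∧ (x : ℝ) ≤ (m : ℝ) ^ θ}) (by
      rintro m ⟨hm, p, hp, q, hq, hq2, hmpq, hpm⟩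
      exact ⟨by omega, p, hp, q, (Finset.mem_filter.mp hq).2, hq2, hmpq, hpm⟩) hfin
    exact_mod_cast hle
  · -- optimality
    rintro P ⟨c, hc, X0, hX0⟩
    refine ⟨c / 2, by positivity, max X0 (max n0 2), fun X hX => ?_⟩
    have h2 : X0 ≤ X := (le_max_left _ _).trans hX
    have h3 : n0 ≤ X := ((le_max_left _ _).trans (le_max_right _ _)).trans hX
    have h4 : 2 ≤ X := ((le_max_right _ _).trans (le_max_right _ _)).trans hX
    have h5 := hX0 X h2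
    have hXpos : (0 : ℝ) < X := by exact_mod_cast (by omega : 0 < X)
    have hlog : 0 < Real.log X := Real.log_pos (by exact_mod_cast (by omega : 1 < X))
    have hPfin : (P ∩ Set.Iic X).Finite := (Set.finite_Iic X).subset Set.inter_subset_right
    have hUfin : ({p : ℕ | p.Prime} ∩ Set.Iic X).Finite :=
      (Set.finite_Iic X).subset Set.inter_subset_right
    have h6 : {m : ℕ | m ≤ X ∧ ∃ x ∈ P, ∃ q : ℕ, q.Prime ∧ m = x * (x + 1) + q}.ncard ≤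
        (P ∩ Set.Iic X).ncard * ({p : ℕ | p.Prime} ∩ Set.Iic X).ncard := by
      have h7 : {m : ℕ | m ≤ X ∧ ∃ x ∈ P, ∃ q : ℕ, q.Prime ∧ m = x * (x + 1) + q} ⊆
          (fun y : ℕ × ℕ => y.1 * (y.1 + 1) + y.2) ''
            ((P ∩ Set.Iic X) ×ˢ ({p : ℕ | p.Prime} ∩ Set.Iic X)) := by
        rintro m ⟨hm, p, hp, q, hq, rfl⟩
        have h8 : p ≤ p * (p + 1) := Nat.le_mul_of_pos_right _ (Nat.succ_pos p)
        refine ⟨(p, q), ⟨⟨hp, ?_⟩, hq, ?_⟩, rfl⟩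
        · rw [Set.mem_Iic]
          omega
        · rw [Set.mem_Iic]
          omega
      have h8 := Set.ncard_le_ncard h7 ((hPfin.prod hUfin).image _)
      refine h8.trans ((Set.ncard_image_le (hPfin.prod hUfin)).trans (le_of_eq ?_))
      exact Set.ncard_prod
    rw [hcnt] at h6
    have h7 : c * X ≤ ((P ∩ Set.Iic X).ncard : ℝ) * (Nat.primeCounting X : ℝ) := by
      refine h5.trans ?_
      exact_mod_cast h6
    have h8 := (hn0 X h3).2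
    have h9 : (0 : ℝ) ≤ ((P ∩ Set.Iic X).ncard : ℝ) := Nat.cast_nonneg _
    have h10 : c * X * Real.log X ≤ ((P ∩ Set.Iic X).ncard : ℝ) * (11 / 10 * X) := by
      calc c * X * Real.log X ≤
          ((P ∩ Set.Iic X).ncard : ℝ) * (Nat.primeCounting X : ℝ) * Real.log X := by gcongr
        _ = ((P ∩ Set.Iic X).ncard : ℝ) * ((Nat.primeCounting X : ℝ) * Real.log X) := by ring
        _ ≤ _ := by gcongr
    have h11 : c * Real.log X * X ≤ 11 / 10 * ((P ∩ Set.Iic X).ncard : ℝ) * X := by linarith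
    have h12 := le_of_mul_le_mul_right h11 hXpos
    linarith

end Pool.Agent.Results.MP_3f6540_nt.ThinSet
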