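import Mathlib
import Pool.Agent.LeX.Prop

/-!
The odd `n ≤ X` with a representation `n = p + x(x+1)`, `1 ≤ x ≤ ε log n`, have number between
`c ε X` and `C ε X`.
-/

namespace Pool.Agent.Results.MP_3f6540_nt.TypicalLeastX

open Filter

theorem result : ∃ c C : ℝ, 0 < c ∧ 0 < C ∧ ∀ ε : ℝ, 0 < ε → ε ≤ 1 → ∀ᶠ X : ℕ in atTop,
    c * ε * X ≤ (Set.ncard {n : ℕ | n ≤ X ∧ Odd n ∧ ∃ p x : ℕ, p.Prime ∧ 1 ≤ x ∧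
      (x : ℝ) ≤ ε * Real.log n ∧ n = p + x * (x + 1)} : ℝ) ∧
    (Set.ncard {n : ℕ | n ≤ X ∧ Odd n ∧ ∃ p x : ℕ, p.Prime ∧ 1 ≤ x ∧
      (x : ℝ) ≤ ε * Real.log n ∧ n = p + x * (x + 1)} : ℝ) ≤ C * ε * X :=
  Pool.Agent.LeX.least_x_prop

end Pool.Agent.Results.MP_3f6540_nt.TypicalLeastX
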